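import Mathlib
import Pool.Agent.Lib.MP_551055_al.Trim.AT70.Tree
import Pool.Agent.Lib.MP_551055_al.Trim.X.MP_e6f638_al.Stmts

/-!
# The splitting of an even Artin group at two generators without relation
-/

set_option autoImplicit false

namespace Pool.Agent.Lib.MP_e6f638_al
end Pool.Agent.Lib.MP_e6f638_al

namespace Pool.Agent.Lib.MP_551055_al.AT70

open Pool.Agent.Lib.MP_e6f638_al

section

variable {S : Type} (l : S → S → ℕ) (s t : S)

/-- The base of the splitting. -/
def baseC : Subgroup (EA l) := par l {x | x ≠ s ∧ x ≠ t}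

/-- The factors of the splitting. -/
def facP (b : Bool) : Subgroup (EA l) := par l {x | x ≠ bif b then s else t}

theorem baseC_le (b : Bool) : baseC l s t ≤ facP l s t b := by
  refine Subgroup.closure_mono (Set.image_mono ?_)
  intro x hx
  cases b
  · exact hx.2
  · exact hx.1

theorem gen_mem {X : Set S} {x : S} (hx : x ∈ X) : gen l x ∈ par l X :=
  Subgroup.subset_closure ⟨x, hx, rfl⟩

theorem gen_rel (x y : S) : (gen l x * gen l y) ^ l x y = (gen l y * gen l x) ^ l x y := by
  have h : ((FreeGroup.of x * FreeGroup.of y) ^ l x y *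
      ((FreeGroup.of y * FreeGroup.of x) ^ l x y)⁻¹ : FreeGroup S) ∈ rels l := ⟨x, y, rfl⟩
  have h1 := PresentedGroup.one_of_mem h
  rw [map_mul, map_inv, mul_inv_eq_one, map_pow, map_pow, map_mul, map_mul] at h1
  exact h1

/-- Two homomorphisms from a standard subgroup which agree on the generators. -/
theorem par_hom_ext {X : Set S} {B : Type} [Group B] (F : EA l →* B) (f : par l X →* B)
    (h : ∀ x (hx : x ∈ X), F (gen l x) = f ⟨gen l x, gen_mem l hx⟩) (p : par l X) :
    F p = f p := by
  obtain ⟨p, hp⟩ := p
  show F p = f ⟨p, hp⟩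
  unfold par at hp
  induction hp using Subgroup.closure_induction with
  | mem y hy =>
    obtain ⟨x, hx, rfl⟩ := hy
    exact h x hx
  | one => rw [map_one]; exact (map_one f).symm
  | mul y z hy hz ihy ihz =>
    rw [map_mul, ihy, ihz, ← map_mul]
    rfl
  | inv y hy ihy =>
    rw [map_inv, ihy, ← map_inv]
    rfl

/-- If there is no relation between `s` and `t` the group is the amalgam of the standard subgroups
without `s` and without `t`. -/
theorem artin_tree (hst : s ≠ t) (h0 : l s t = 0) (h0' : l t s = 0) :
    (graph (baseC l s t) (facP l s t)).IsTree := by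
  classical
  refine isTree_of_universal (baseC_le l s t) ?_ ?_
  · rw [eq_top_iff, ← PresentedGroup.closure_range_of (rels l), Subgroup.closure_le]
    rintro _ ⟨x, rfl⟩
    by_cases hx : x = s
    · exact Subgroup.mem_iSup_of_mem false (gen_mem l (show x ≠ t from hx ▸ hst))
    · exact Subgroup.mem_iSup_of_mem true (gen_mem l (show x ≠ s from hx))
  · intro B _ f hf
    let F : S → B := fun x => if hx : x = s then
      f false ⟨gen l x, gen_mem l (show x ≠ t from hx ▸ hst)⟩ else
      f true ⟨gen l x, gen_mem l (show x ≠ s from hx)⟩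
    have hF1 : ∀ x (hx : x ≠ s), F x = f true ⟨gen l x, gen_mem l hx⟩ := fun x hx => dif_neg hx
    have hF2 : ∀ x (hx : x ≠ t), F x = f false ⟨gen l x, gen_mem l hx⟩ := by
      intro x hx
      by_cases hxs : x = s
      · exact dif_pos hxs
      · rw [hF1 x hxs]
        exact hf true false ⟨gen l x, gen_mem l (show x ≠ s ∧ x ≠ t from ⟨hxs, hx⟩)⟩
    have hrel : ∀ x y, (F x * F y) ^ l x y = (F y * F x) ^ l x y := by
      intro x y
      by_cases h1 : x ≠ s ∧ y ≠ s
      · rw [hF1 x h1.1, hF1 y h1.2, ← map_mul, ← map_mul, ← map_pow, ← map_pow]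
        exact congrArg (f true) (Subtype.ext (gen_rel l x y))
      · by_cases h2 : x ≠ t ∧ y ≠ t
        · rw [hF2 x h2.1, hF2 y h2.2, ← map_mul, ← map_mul, ← map_pow, ← map_pow]
          exact congrArg (f false) (Subtype.ext (gen_rel l x y))
        · have h3 : l x y = 0 := by
            by_cases hxs : x = s
            · by_cases hyt : y = t
              · rw [hxs, hyt, h0]
              · exact absurd ⟨fun h => hst (hxs.symm.trans h), hyt⟩ h2
            · by_cases hys : y = s
              · by_cases hxt : x = t
                · rw [hys, hxt, h0']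
                · exact absurd ⟨hxt, fun h => hst (hys.symm.trans h)⟩ h2
              · exact absurd ⟨hxs, hys⟩ h1
          rw [h3, pow_zero, pow_zero]
    have hrel' : ∀ r ∈ rels l, FreeGroup.lift F r = 1 := by
      rintro _ ⟨x, y, rfl⟩
      rw [map_mul, map_inv, mul_inv_eq_one, map_pow, map_pow, map_mul, map_mul,
        FreeGroup.lift_apply_of, FreeGroup.lift_apply_of]
      exact hrel x y
    refine ⟨PresentedGroup.toGroup hrel', fun b p => ?_⟩
    refine par_hom_ext l _ (f b) (fun x hx => ?_) p
    have hof : PresentedGroup.toGroup hrel' (gen l x) = F x := PresentedGroup.toGroup.of hrel'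
    rw [hof]
    cases b
    · exact hF2 x hx
    · exact hF1 x hx

end

end Pool.Agent.Lib.MP_551055_al.AT70
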