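import Mathlib
import Pool.Agent.Lib.MP_551055_al.Trim.AT70.Tree

/-!
# The Bass-Serre tree of an amalgam: stabilisers, and the tree of Mathlib's `Monoid.PushoutI`
-/

set_option autoImplicit false

namespace Pool.Agent.Lib.MP_551055_al.AT70

open Monoid Monoid.PushoutI

universe u

section stab

variable {A : Type u} [Group A] {ι : Type u} {C : Subgroup A} {P : ι → Subgroup A}

/-- The stabilisers of the vertices are conjugates of `C` and of the `P i`. -/
theorem stab_vertex (v : Vert C P) :
    (∃ g : A, ∀ x : A, x • v = v ↔ g⁻¹ * x * g ∈ C) ∨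
    ∃ (i : ι) (g : A), ∀ x : A, x • v = v ↔ g⁻¹ * x * g ∈ P i := by
  obtain q | ⟨i, q⟩ := v
  · induction q using QuotientGroup.induction_on with | _ g => ?_
    exact Or.inl ⟨g, fun x => smul_inl x g⟩
  · induction q using QuotientGroup.induction_on with | _ g => ?_
    exact Or.inr ⟨i, g, fun x => smul_inr x g i⟩

/-- The stabilisers of the edges are conjugates of `C`. -/
theorem stab_edge (hC : ∀ i, C ≤ P i) {v w : Vert C P} (h : (graph C P).Adj v w) :
    ∃ g : A, ∀ x : A, (x • v = v ∧ x • w = w) ↔ g⁻¹ * x * g ∈ C := by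
  rcases h with ⟨g, i, rfl, rfl⟩ | ⟨g, i, rfl, rfl⟩
  · refine ⟨g, fun x => ?_⟩
    rw [smul_inl, smul_inr]
    exact ⟨fun h => h.1, fun h => ⟨h, hC i h⟩⟩
  · refine ⟨g, fun x => ?_⟩
    rw [smul_inl, smul_inr]
    exact ⟨fun h => h.2, fun h => ⟨hC i h, h⟩⟩

end stab

section push

variable {ι : Type u} {G : ι → Type u} {H : Type u} [∀ i, Group (G i)] [Group H]
  (φ : ∀ i, H →* G i)

theorem base_range_le (i : ι) : (base φ).range ≤ (of (φ := φ) i).range := by
  rintro _ ⟨h, rfl⟩
  exact ⟨φ i h, of_apply_eq_base φ i h⟩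

/-- The tree of the pushout. -/
abbrev pushGraph : SimpleGraph (Vert (base φ).range fun i => (of (φ := φ) i).range) :=
  graph (base φ).range fun i => (of (φ := φ) i).range

theorem pushGraph_isTree [Nonempty ι] : (pushGraph φ).IsTree := by
  refine isTree_of_universal (base_range_le φ) ?_ ?_
  · rw [eq_top_iff]
    intro x _
    induction x using PushoutI.induction_on with
    | of i g => exact Subgroup.mem_iSup_of_mem i ⟨g, rfl⟩
    | base h =>
      obtain ⟨i⟩ := ‹Nonempty ι›
      exact Subgroup.mem_iSup_of_mem i (base_range_le φ i ⟨h, rfl⟩)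
    | mul x y hx hy => exact mul_mem (hx (Subgroup.mem_top _)) (hy (Subgroup.mem_top _))
  · intro B _ f hf
    obtain ⟨i₀⟩ := ‹Nonempty ι›
    refine ⟨lift (fun i => (f i).comp (of (φ := φ) i).rangeRestrict)
      (((f i₀).comp (Subgroup.inclusion (base_range_le φ i₀))).comp (base φ).rangeRestrict)
      fun i => ?_, fun i p => ?_⟩
    · ext h
      have h1 := hf i i₀ ⟨base φ h, h, rfl⟩
      refine Eq.trans (congrArg (f i) (Subtype.ext ?_)) h1
      exact of_apply_eq_base φ i h
    · obtain ⟨_, g, rfl⟩ := p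
      exact lift_of _ _ _ _

end push

end Pool.Agent.Lib.MP_551055_al.AT70
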